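import Pool.Agent.LibSturmian.Mech

/-!
A Sturmian word `u` such that `S^6(u)` is not rich.
-/

namespace Pool.Agent.Results.MP_9b64ae_co.NotRich

open Pool.Agent.LibSturmian

lemma floor_val (n k : ℕ) (h1 : k ^ 2 ≤ 2 * n ^ 2) (h2 : 2 * n ^ 2 < (k + 1) ^ 2) :
    ⌊(n : ℝ) * √2 + 0⌋ = (k : ℤ) := by
  have hs : (√2 : ℝ) ^ 2 = 2 := Real.sq_sqrt (by norm_num)
  have hs0 : 0 ≤ √2 := Real.sqrt_nonneg 2
  rw [add_zero, Int.floor_eq_iff]
  have h1' : ((k:ℝ)) ^ 2 ≤ 2 * (n:ℝ) ^ 2 := by exact_mod_cast h1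
  have h2' : 2 * (n:ℝ) ^ 2 < ((k:ℝ) + 1) ^ 2 := by exact_mod_cast h2
  have hsq : ((n:ℝ) * √2) ^ 2 = 2 * (n:ℝ)^2 := by rw [mul_pow, hs]; ring
  constructor
  · push_cast
    apply le_of_sq_le_sq _ (by positivity)
    rw [hsq]; exact h1'
  · push_cast
    apply lt_of_pow_lt_pow_left₀ 2 (by positivity)
    rw [hsq]; exact h2'

/-- the word with slope `√2` -/
noncomputable def u : ℕ → ZMod 2 := mech (√2) 0

lemma u_val (n k l : ℕ) (h1 : k ^ 2 ≤ 2 * n ^ 2) (h2 : 2 * n ^ 2 < (k + 1) ^ 2)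
    (h3 : l ^ 2 ≤ 2 * (n + 1) ^ 2) (h4 : 2 * (n + 1) ^ 2 < (l + 1) ^ 2) :
    u n = (((l : ℤ) - (k : ℤ) : ℤ) : ZMod 2) := by
  unfold u mech
  have e1 := floor_val n k h1 h2
  have e2 := floor_val (n+1) l h3 h4
  push_cast at e2
  rw [e1, e2]

lemma factor_S6 : factor (S^[6] u) 4 9 = [1, 0, 1, 0, 0, 1, 1, 0, 1] := by
  have u4 : u 4 = 0 := by rw [u_val 4 5 7 (by norm_num) (by norm_num) (by norm_num) (by norm_num)]; decide
  have u5 : u 5 = 1 := by rw [u_val 5 7 8 (by norm_num) (by norm_num) (by norm_num) (by norm_num)]; decide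
  have u6 : u 6 = 1 := by rw [u_val 6 8 9 (by norm_num) (by norm_num) (by norm_num) (by norm_num)]; decide
  have u7 : u 7 = 0 := by rw [u_val 7 9 11 (by norm_num) (by norm_num) (by norm_num) (by norm_num)]; decide
  have u8 : u 8 = 1 := by rw [u_val 8 11 12 (by norm_num) (by norm_num) (by norm_num) (by norm_num)]; decide
  have u9 : u 9 = 0 := by rw [u_val 9 12 14 (by norm_num) (by norm_num) (by norm_num) (by norm_num)]; decide
  have u10 : u 10 = 1 := by rw [u_val 10 14 15 (by norm_num) (by norm_num) (by norm_num) (by norm_num)]; decide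
  have u11 : u 11 = 1 := by rw [u_val 11 15 16 (by norm_num) (by norm_num) (by norm_num) (by norm_num)]; decide
  have u12 : u 12 = 0 := by rw [u_val 12 16 18 (by norm_num) (by norm_num) (by norm_num) (by norm_num)]; decide
  have u13 : u 13 = 1 := by rw [u_val 13 18 19 (by norm_num) (by norm_num) (by norm_num) (by norm_num)]; decide
  have u14 : u 14 = 0 := by rw [u_val 14 19 21 (by norm_num) (by norm_num) (by norm_num) (by norm_num)]; decide
  have u15 : u 15 = 1 := by rw [u_val 15 21 22 (by norm_num) (by norm_num) (by norm_num) (by norm_num)]; decide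
  have u16 : u 16 = 0 := by rw [u_val 16 22 24 (by norm_num) (by norm_num) (by norm_num) (by norm_num)]; decide
  have u17 : u 17 = 1 := by rw [u_val 17 24 25 (by norm_num) (by norm_num) (by norm_num) (by norm_num)]; decide
  have u18 : u 18 = 1 := by rw [u_val 18 25 26 (by norm_num) (by norm_num) (by norm_num) (by norm_num)]; decide
  have hS : ∀ i, (S^[6] u) i = u i + u (i+2) + u (i+4) + u (i+6) := by
    intro i
    have h2 : (2 : ZMod 2) = 0 := by decide
    simp only [Function.iterate_succ, Function.iterate_zero, Function.comp, id, S]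
    ring_nf
    have h6 : (6 : ZMod 2) = 0 := by decide
    have h15 : (15 : ZMod 2) = 1 := by decide
    have h20 : (20 : ZMod 2) = 0 := by decide
    rw [h6, h15, h20]
    ring
  unfold factor
  simp only [hS]
  simp only [List.ofFn_succ, List.ofFn_zero]
  simp [u4, u5, u6, u7, u8, u9, u10, u11, u12, u13, u14, u15, u16, u17, u18]
  decide

lemma palCount_le : palCount [1, 0, 1, 0, 0, 1, 1, 0, 1] = 9 := by
  have h : {p : List (ZMod 2) | p <:+: [1, 0, 1, 0, 0, 1, 1, 0, 1] ∧ p.reverse = p}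
      = ((((([1, 0, 1, 0, 0, 1, 1, 0, 1] : List (ZMod 2)).tails.flatMap List.inits).toFinset.filter
          (fun p => p.reverse = p)) : Finset (List (ZMod 2))) : Set (List (ZMod 2))) := by
    ext p
    simp only [Set.mem_ofPred_eq, Finset.coe_filter, List.mem_toFinset, List.mem_flatMap,
      List.mem_tails, List.mem_inits, List.infix_iff_prefix_suffix]
    constructor
    · rintro ⟨⟨t, h1, h2⟩, h3⟩
      exact ⟨⟨t, h2, h1⟩, h3⟩
    · rintro ⟨⟨t, h1, h2⟩, h3⟩
      exact ⟨⟨t, h2, h1⟩, h3⟩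
  unfold palCount
  rw [h, Set.ncard_coe_finset]
  decide

/-- There are a Sturmian word `u`, an integer `k ≥ 1` and a factor `w` of `S^k(u)` with fewer than
`|w| + 1` distinct palindromic factors. -/
theorem result : ∃ u : ℕ → ZMod 2, IsSturmian u ∧
    ∃ k : ℕ, 1 ≤ k ∧ ∃ i n : ℕ, palCount (factor (S^[k] u) i n) < n + 1 := by
  refine ⟨u, mech_sturmian irrational_sqrt_two 0, 6, by norm_num, 4, 9, ?_⟩
  rw [factor_S6, palCount_le]
  norm_num

end Pool.Agent.Results.MP_9b64ae_co.NotRich
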